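import Pool.Agent.H52.APS.WHT

/-!
# Insulating cracks, scale invariant bound, row S_NZM: vanishing moments for the Newton kernel
-/

open MeasureTheory Set Filter Topology Metric
open scoped ENNReal NNReal ContDiff RealInnerProductSpace

namespace Pool.Agent.H52.APS

open Pool.Agent.H94.IC Pool.Agent.H94.AC Pool.Agent.H92.CK Pool.Agent.H65.AP Pool.Agent.H70.APS

theorem inner_gr (f : E → ℝ) (y v : E) : ⟪v, gr f y⟫ = fderiv ℝ f y v := by
  rw [real_inner_comm]
  exact InnerProductSpace.toDual_symm_apply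

theorem bk_deriv (a b y : E) (c : ℂ) (k : ℕ) (v : E) :
    fderiv ℝ (bk a b c (k + 1)) y v = (c * ((k + 1 : ℕ) * cz a b y ^ k * cz a b v)).re := by
  have h1 : HasFDerivAt (fun y' => CZ a b y') (CZ a b) y := (CZ a b).hasFDerivAt
  have h2 := (hasDerivAt_pow (k + 1) (CZ a b y)).comp_hasFDerivAt y h1
  have h3 := (Complex.reCLM.hasFDerivAt (x := c * (CZ a b y) ^ (k + 1))).comp y (h2.const_mul c)
  have h4 : HasFDerivAt (bk a b c (k + 1)) _ y := h3.congr_of_eventuallyEq (Eventually.of_forall fun y' => by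
    simp only [Function.comp_apply, bk, CZ_apply]; rfl)
  rw [h4.fderiv]
  show (c • (((k + 1 : ℕ) * (CZ a b y) ^ (k + 1 - 1)) • CZ a b v)).re = _
  simp only [smul_eq_mul, CZ_apply, Nat.add_sub_cancel]

theorem cz_bound (a b y : E) (h : ON a b) : ‖cz a b y‖ ≤ 2 * ‖y‖ := by
  rw [← CZ_apply]
  exact ((CZ a b).le_opNorm y).trans (mul_le_mul_of_nonneg_right (CZ_norm a b h) (norm_nonneg _))

/-- the integrand -/
noncomputable def GI (a b z y v : E) : ℝ := (((((‖z‖ : ℂ) - cz a b y) ^ 2)⁻¹) * cz a b v).re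

theorem GI_sum (a b y z v : E) (h : ON a b) (hz : z ≠ 0) (hy : 4 * ‖y‖ < ‖z‖) :
    HasSum (fun k : ℕ => fderiv ℝ (bk a b (((‖z‖ : ℂ) ^ (k + 2))⁻¹) (k + 1)) y v) (GI a b z y v) := by
  have hzp := norm_pos_iff.mpr hz
  have hzc : (‖z‖ : ℂ) ≠ 0 := by exact_mod_cast hzp.ne'
  have h1 := cz_bound a b y h
  have hr : ‖cz a b y / (‖z‖ : ℂ)‖ < 1 := by
    rw [norm_div, Complex.norm_real, norm_norm, div_lt_one hzp]
    linarith
  have h2 := hasSum_choose_mul_geometric_of_norm_lt_one 1 hr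
  have h3 := (h2.mul_left (((‖z‖ : ℂ) ^ 2)⁻¹)).mul_right (cz a b v)
  have h4 := Complex.hasSum_re h3
  have hw := w_ne0 a b y z h hz hy
  have e : ((((‖z‖ : ℂ) ^ 2)⁻¹) * (1 / (1 - cz a b y / ‖z‖) ^ (1 + 1)) * cz a b v).re = GI a b z y v := by
    rw [GI]
    congr 2
    have h5 : (1 - cz a b y / (‖z‖ : ℂ)) = ((‖z‖ : ℂ) - cz a b y) / ‖z‖ := by
      rw [sub_div, div_self hzc]
    rw [h5, show (1 + 1 : ℕ) = 2 from rfl, div_pow, one_div, inv_div, ← mul_div_assoc,
      inv_mul_cancel₀ (pow_ne_zero 2 hzc), one_div]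
  rw [← e]
  have e2 : ∀ k : ℕ, fderiv ℝ (bk a b (((‖z‖ : ℂ) ^ (k + 2))⁻¹) (k + 1)) y v =
      (((‖z‖ : ℂ) ^ 2)⁻¹ * (((k + 1).choose 1 : ℂ) * (cz a b y / ‖z‖) ^ k) * cz a b v).re := by
    intro k
    rw [bk_deriv]
    congr 1
    rw [Nat.choose_one_right, div_pow, pow_add, mul_inv]
    ring
  simp_rw [e2]
  exact h4

theorem bk_bound (a b y z v : E) (h : ON a b) (hz : z ≠ 0) (hy : 4 * ‖y‖ < ‖z‖) (k : ℕ) :
    ‖fderiv ℝ (bk a b (((‖z‖ : ℂ) ^ (k + 2))⁻¹) (k + 1)) y v‖ ≤
      ‖v‖ * (2 * (‖z‖ ^ 2)⁻¹ * (((k + 1).choose 1 : ℝ) * (1 / 2) ^ k)) := by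
  have hzp := norm_pos_iff.mpr hz
  rw [bk_deriv]
  refine (Complex.abs_re_le_norm _).trans ?_
  rw [norm_mul, norm_mul, norm_mul, norm_pow, norm_inv, norm_pow, Complex.norm_real, norm_norm,
    Complex.norm_natCast, Nat.choose_one_right]
  have h1 := cz_bound a b y h
  have h2 := cz_bound a b v h
  have h3 : ‖cz a b y‖ ≤ ‖z‖ * (1 / 2) := by linarith
  have h4 := pow_le_pow_left₀ (norm_nonneg _) h3 k
  calc (‖z‖ ^ (k + 2))⁻¹ * (((k + 1 : ℕ) : ℝ) * ‖cz a b y‖ ^ k * ‖cz a b v‖)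
      ≤ (‖z‖ ^ (k + 2))⁻¹ * (((k + 1 : ℕ) : ℝ) * (‖z‖ * (1 / 2)) ^ k * (2 * ‖v‖)) := by gcongr
    _ = _ := by
      rw [mul_pow, pow_add, mul_inv]
      field_simp

/-- the field -/
noncomputable def VF (κ : E → ℝ) (Q : E → E) (w y : E) : E :=
  ⟪gr κ y, w⟫ • Q y - ⟪Q y, w⟫ • gr κ y - ⟪Q y, gr κ y⟫ • w

theorem VF_inner (κ q : E → ℝ) (Q : E → E) (w y : E) : ⟪Q y, MF κ q w y⟫ = fderiv ℝ q y (VF κ Q w y) := by
  rw [← inner_gr, MF, VF]
  simp only [inner_sub_left, inner_sub_right, inner_smul_left, inner_smul_right, conj_trivial]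
  rw [real_inner_comm (gr q y) w]
  ring

theorem gr_kappa_zero (κ : E → ℝ) (R : ℝ) (h : Kap R κ) (y : E) (hy : 2 * R < ‖y‖) : gr κ y = 0 := by
  have h1 : κ =ᶠ[𝓝 y] fun _ => (1 : ℝ) := by
    filter_upwards [(isOpen_lt continuous_const continuous_norm).mem_nhds hy] with x hx
    exact h.one x hx.le
  show (InnerProductSpace.toDual ℝ E).symm (fderiv ℝ κ y) = 0
  rw [h1.fderiv_eq, fderiv_fun_const]
  simp

theorem VF_zero (κ : E → ℝ) (R : ℝ) (Q : E → E) (w : E) (h : Kap R κ) (y : E) (hy : 2 * R < ‖y‖) :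
    VF κ Q w y = 0 := by
  rw [VF, gr_kappa_zero κ R h y hy]
  simp

theorem gr_cont (κ : E → ℝ) (h : ContDiff ℝ ∞ κ) : Continuous (gr κ) := by
  have h1 : Continuous (fderiv ℝ κ) := h.continuous_fderiv (by simp)
  exact (InnerProductSpace.toDual ℝ E).symm.continuous.comp h1

theorem VF_int (κ : E → ℝ) (R : ℝ) (Q : E → E) (w : E) (h : Kap R κ) (hQ : MemLp Q 2 volume) :
    Integrable (VF κ Q w) := by
  have hc := gr_cont κ h.sm
  have hcs : HasCompactSupport (gr κ) := by
    refine HasCompactSupport.intro (isCompact_closedBall (0 : E) (2 * R)) fun y hy => ?_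
    refine gr_kappa_zero κ R h y ?_
    simpa using hy
  have hκ : MemLp (gr κ) 2 volume := hc.memLp_of_hasCompactSupport hcs
  have h1 : Integrable (fun y => ‖gr κ y‖ * ‖Q y‖) := hκ.norm.integrable_mul hQ.norm
  have hQm := hQ.aestronglyMeasurable
  have i1 : Continuous fun y => (inner ℝ (gr κ y) w : ℝ) := Continuous.inner hc continuous_const
  have i2 : AEStronglyMeasurable (fun y => (inner ℝ (Q y) w : ℝ)) volume :=
    AEStronglyMeasurable.inner hQm aestronglyMeasurable_const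
  have i3 : AEStronglyMeasurable (fun y => (inner ℝ (Q y) (gr κ y) : ℝ)) volume :=
    AEStronglyMeasurable.inner hQm hc.aestronglyMeasurable
  have m1 : AEStronglyMeasurable (fun y => (inner ℝ (gr κ y) w : ℝ) • Q y) volume :=
    i1.aestronglyMeasurable.smul hQm
  have m2 : AEStronglyMeasurable (fun y => (inner ℝ (Q y) w : ℝ) • gr κ y) volume :=
    i2.smul hc.aestronglyMeasurable
  have m3 : AEStronglyMeasurable (fun y => (inner ℝ (Q y) (gr κ y) : ℝ) • w) volume :=
    i3.smul aestronglyMeasurable_const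
  have hm : AEStronglyMeasurable (VF κ Q w) volume := (m1.sub m2).sub m3
  refine (h1.const_mul (3 * ‖w‖)).mono' hm (Eventually.of_forall fun y => ?_)
  rw [VF]
  have a1 := norm_inner_le_norm (𝕜 := ℝ) (gr κ y) w
  have a2 := norm_inner_le_norm (𝕜 := ℝ) (Q y) w
  have a3 := norm_inner_le_norm (𝕜 := ℝ) (Q y) (gr κ y)
  refine (norm_sub_le _ _).trans ((add_le_add (norm_sub_le _ _) le_rfl).trans ?_)
  rw [norm_smul, norm_smul, norm_smul]
  have b1 := mul_le_mul_of_nonneg_right a1 (norm_nonneg (Q y))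
  have b2 := mul_le_mul_of_nonneg_right a2 (norm_nonneg (gr κ y))
  have b3 := mul_le_mul_of_nonneg_right a3 (norm_nonneg w)
  nlinarith

/-- step one: the functions of one null vector -/
theorem step_one (κ : E → ℝ) (R : ℝ) (Q : E → E) (z w : E) (hR : 0 < R) (h : Kap R κ) (hQ : MemLp Q 2 volume)
    (H : ∀ (a b : E) (c : ℂ) (k : ℕ) (w : E), ON a b → ∫ y, ⟪Q y, MF κ (bk a b c k) w y⟫ = 0) (hz : 8 * R < ‖z‖)
    (a b : E) (hab : ON a b) : ∫ y, GI a b z y (VF κ Q w y) = 0 := by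
  have hz0 : z ≠ 0 := by
    intro h0
    rw [h0, norm_zero] at hz
    linarith
  have hV := VF_int κ R Q w h hQ
  have hsum : Summable fun k : ℕ => 2 * (‖z‖ ^ 2)⁻¹ * (((k + 1).choose 1 : ℝ) * (1 / 2) ^ k) :=
    ((hasSum_choose_mul_geometric_of_norm_lt_one 1 (r := (1 / 2 : ℝ)) (by norm_num)).summable).mul_left _
  have key := hasSum_integral_of_dominated_convergence (μ := (volume : Measure E))
    (F := fun (k : ℕ) y => fderiv ℝ (bk a b (((‖z‖ : ℂ) ^ (k + 2))⁻¹) (k + 1)) y (VF κ Q w y))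
    (f := fun y => GI a b z y (VF κ Q w y))
    (bound := fun k y => ‖VF κ Q w y‖ * (2 * (‖z‖ ^ 2)⁻¹ * (((k + 1).choose 1 : ℝ) * (1 / 2) ^ k)))
    ?_ ?_ ?_ ?_ ?_
  · have h0 : ∀ k : ℕ, ∫ y, fderiv ℝ (bk a b (((‖z‖ : ℂ) ^ (k + 2))⁻¹) (k + 1)) y (VF κ Q w y) = 0 := by
      intro k
      have := H a b (((‖z‖ : ℂ) ^ (k + 2))⁻¹) (k + 1) w hab
      simp_rw [VF_inner] at this
      exact this
    simp_rw [h0] at key
    exact key.unique hasSum_zero
  · intro k
    have e : (fun y => fderiv ℝ (bk a b (((‖z‖ : ℂ) ^ (k + 2))⁻¹) (k + 1)) y (VF κ Q w y)) =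
        fun y => ((((‖z‖ : ℂ) ^ (k + 2))⁻¹) * ((k + 1 : ℕ) * CZ a b y ^ k * CZ a b (VF κ Q w y))).re := by
      funext y
      rw [bk_deriv]
      simp only [CZ_apply]
    simp only [e]
    refine Complex.continuous_re.comp_aestronglyMeasurable ?_
    refine AEStronglyMeasurable.const_mul ?_ _
    refine AEStronglyMeasurable.mul ?_ ?_
    · exact (continuous_const.mul ((CZ a b).continuous.pow k)).aestronglyMeasurable
    · exact (CZ a b).continuous.comp_aestronglyMeasurable hV.aestronglyMeasurable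
  · intro k
    refine Eventually.of_forall fun y => ?_
    by_cases hy : 2 * R < ‖y‖
    · rw [VF_zero κ R Q w h y hy]
      simp
    · exact bk_bound a b y z _ hab hz0 (by linarith) k
  · exact Eventually.of_forall fun y => hsum.mul_left _
  · simp_rw [tsum_mul_left]
    exact hV.norm.mul_const _
  · refine Eventually.of_forall fun y => ?_
    by_cases hy : 2 * R < ‖y‖
    · rw [VF_zero κ R Q w h y hy]
      have e1 : GI a b z y 0 = 0 := by simp [GI, cz]
      rw [e1]
      simp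
    · exact GI_sum a b y z _ hab hz0 (by linarith)

theorem GI_meas (a : E) (b : ℝ → E) (hb : Continuous b) (z : E) (V : E → E) (hV : AEStronglyMeasurable V volume)
    (ν : Measure ℝ) [SFinite ν] :
    AEStronglyMeasurable (fun p : E × ℝ => GI a (b p.2) z p.1 (V p.1)) ((volume : Measure E).prod ν) := by
  have hV1 : AEStronglyMeasurable (fun p : E × ℝ => V p.1) ((volume : Measure E).prod ν) := hV.comp_fst
  have hcz : Continuous fun p : E × ℝ => cz a (b p.2) p.1 := by
    unfold cz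
    fun_prop
  have h1 : AEStronglyMeasurable (fun p : E × ℝ => ((((‖z‖ : ℂ) - cz a (b p.2) p.1) ^ 2)⁻¹))
      ((volume : Measure E).prod ν) :=
    (((continuous_const.sub hcz).pow 2).measurable.inv).aestronglyMeasurable
  have hb2 : Continuous fun p : E × ℝ => b p.2 := hb.comp continuous_snd
  have i1 : AEStronglyMeasurable (fun p : E × ℝ => (inner ℝ a (V p.1) : ℝ)) ((volume : Measure E).prod ν) :=
    AEStronglyMeasurable.inner aestronglyMeasurable_const hV1
  have i2 : AEStronglyMeasurable (fun p : E × ℝ => (inner ℝ (b p.2) (V p.1) : ℝ)) ((volume : Measure E).prod ν) :=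
    AEStronglyMeasurable.inner hb2.aestronglyMeasurable hV1
  have h2 : AEStronglyMeasurable (fun p : E × ℝ => cz a (b p.2) (V p.1)) ((volume : Measure E).prod ν) := by
    unfold cz
    exact (Complex.continuous_ofReal.comp_aestronglyMeasurable i1).add
      ((Complex.continuous_ofReal.comp_aestronglyMeasurable i2).mul aestronglyMeasurable_const)
  unfold GI
  exact Complex.continuous_re.comp_aestronglyMeasurable (h1.mul h2)

theorem GI_bound (a b z y v : E) (h : ON a b) (hz : z ≠ 0) (hy : 4 * ‖y‖ < ‖z‖) :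
    ‖GI a b z y v‖ ≤ (3 / 4 * ‖z‖)⁻¹ ^ 2 * 2 * ‖v‖ := by
  have e : GI a b z y v = FD a b z y v := by
    show _ = ((((‖z‖ : ℂ) - CZ a b y) ^ 2)⁻¹ • CZ a b v).re
    rw [CZ_apply, CZ_apply, smul_eq_mul]
    rfl
  rw [e]
  exact ((FD a b z y).le_opNorm v).trans (mul_le_mul_of_nonneg_right (FD_bound a b y z h hz hy) (norm_nonneg _))

theorem pf_NZM (hWHT : T_WHT) : T_NZM := by
  intro κ R Q z w hR h hQ H hz
  have hz0 : z ≠ 0 := by
    intro h0
    rw [h0, norm_zero] at hz
    linarith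
  obtain ⟨a, b, hb, hON, hN⟩ := hWHT z hz0
  have hV := VF_int κ R Q w h hQ
  have hpi : (0 : ℝ) ≤ 2 * Real.pi := by positivity
  have hpt : ∀ y, ⟪Q y, MF κ (fun y' => ‖z - y'‖⁻¹) w y⟫ =
      (2 * Real.pi)⁻¹ * ∫ t in Ioc (0 : ℝ) (2 * Real.pi), GI a (b t) z y (VF κ Q w y) := by
    intro y
    rw [VF_inner]
    by_cases hy : 2 * R < ‖y‖
    · rw [VF_zero κ R Q w h y hy, map_zero]
      have e1 : ∀ t, GI a (b t) z y 0 = 0 := fun t => by simp [GI, cz]
      simp_rw [e1]
      simp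
    · have hy' : 4 * ‖y‖ < ‖z‖ := by linarith
      have hCZc : Continuous fun t => CZ a (b t) := by
        unfold CZ
        have h1 : Continuous fun t => innerSL ℝ (b t) := (innerSL ℝ (E := E)).continuous.comp hb
        exact continuous_const.add ((continuous_const.clm_comp h1).const_smul Complex.I)
      have hFDc : Continuous fun t => FD a (b t) z y := by
        unfold FD
        have hw : Continuous fun t => (((‖z‖ : ℂ) - CZ a (b t) y) ^ 2)⁻¹ := by
          refine Continuous.inv₀ ((continuous_const.sub (hCZc.clm_apply continuous_const)).pow 2) ?_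
          intro t
          have := w_ne0 a (b t) y z (hON t) hz0 hy'
          rw [← CZ_apply] at this
          exact pow_ne_zero 2 this
        exact continuous_const.clm_comp (hw.smul hCZc)
      have hGc : Continuous fun t => (InnerProductSpace.toDual ℝ E).symm (FD a (b t) z y) :=
        (InnerProductSpace.toDual ℝ E).symm.continuous.comp hFDc
      have h3 : ∀ t, gr (fun y' => (((‖z‖ : ℂ) - cz a (b t) y')⁻¹).re) y =
          (InnerProductSpace.toDual ℝ E).symm (FD a (b t) z y) := by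
        intro t
        show (InnerProductSpace.toDual ℝ E).symm (fderiv ℝ (fun y' => (((‖z‖ : ℂ) - cz a (b t) y')⁻¹).re) y) = _
        rw [(F_deriv a (b t) y z (hON t) hz0 hy').fderiv]
      rw [← inner_gr, hN y hy', inner_smul_right]
      simp_rw [h3]
      have h4 := (innerSL ℝ (VF κ Q w y)).intervalIntegral_comp_comm (μ := volume)
        (hGc.intervalIntegrable 0 (2 * Real.pi))
      simp only [innerSL_apply_apply] at h4
      rw [← h4, intervalIntegral.integral_of_le hpi]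
      congr 1
      refine integral_congr_ae (Eventually.of_forall fun t => ?_)
      show ⟪VF κ Q w y, (InnerProductSpace.toDual ℝ E).symm (FD a (b t) z y)⟫ = _
      rw [real_inner_comm, InnerProductSpace.toDual_symm_apply]
      show ((((‖z‖ : ℂ) - CZ a (b t) y) ^ 2)⁻¹ • CZ a (b t) (VF κ Q w y)).re = _
      rw [CZ_apply, CZ_apply, smul_eq_mul]
      rfl
  simp_rw [hpt]
  rw [integral_const_mul, integral_integral_swap]
  · have h0 : ∀ t, ∫ y, GI a (b t) z y (VF κ Q w y) = 0 := fun t =>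
      step_one κ R Q z w hR h hQ H hz a (b t) (hON t)
    simp_rw [h0]
    simp
  · have h1 : Integrable (fun p : E × ℝ => (3 / 4 * ‖z‖)⁻¹ ^ 2 * 2 * ‖VF κ Q w p.1‖)
        ((volume : Measure E).prod (volume.restrict (Ioc (0 : ℝ) (2 * Real.pi)))) :=
      (hV.norm.const_mul ((3 / 4 * ‖z‖)⁻¹ ^ 2 * 2)).comp_fst _
    refine h1.mono' (GI_meas a b hb z _ hV.aestronglyMeasurable _) (Eventually.of_forall fun p => ?_)
    show ‖GI a (b p.2) z p.1 (VF κ Q w p.1)‖ ≤ _
    by_cases hy : 2 * R < ‖p.1‖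
    · rw [VF_zero κ R Q w h p.1 hy]
      simp [GI, cz]
    · exact GI_bound a (b p.2) z p.1 _ (hON p.2) hz0 (by linarith)

end Pool.Agent.H52.APS
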