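import Pool.Agent.H70.APS.Targets

/-!
# Insulating cracks, scale invariant bound, row S_WHT: Whittaker formula for the Newton kernel
-/

open MeasureTheory Set Filter Topology Metric
open scoped ENNReal NNReal ContDiff RealInnerProductSpace

namespace Pool.Agent.H52.APS

open Pool.Agent.H94.IC Pool.Agent.H94.AC Pool.Agent.H92.CK Pool.Agent.H65.AP Pool.Agent.H70.APS

theorem G_deriv (D Z : ℝ) (hD : 0 < D) (hZ : 0 < Z) (t : ℝ) :
    HasDerivAt (fun t => t - Real.arctan (((D - Z) * (Real.sin t * Real.cos t)) /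
      (D * Real.cos t ^ 2 + Z * Real.sin t ^ 2))) (D * Z / (D ^ 2 * Real.cos t ^ 2 + Z ^ 2 * Real.sin t ^ 2)) t := by
  have hs := Real.hasDerivAt_sin t
  have hc := Real.hasDerivAt_cos t
  have h1 : Real.sin t ^ 2 + Real.cos t ^ 2 = 1 := Real.sin_sq_add_cos_sq t
  have hM : 0 < D * Real.cos t ^ 2 + Z * Real.sin t ^ 2 := by
    rcases (sq_nonneg (Real.cos t)).lt_or_eq with h | h
    · positivity
    · rw [← h] at h1 ⊢
      have : Real.sin t ^ 2 = 1 := by linarith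
      rw [this]; linarith
  have hQ : 0 < D ^ 2 * Real.cos t ^ 2 + Z ^ 2 * Real.sin t ^ 2 := by
    rcases (sq_nonneg (Real.cos t)).lt_or_eq with h | h
    · positivity
    · rw [← h] at h1 ⊢
      have : Real.sin t ^ 2 = 1 := by linarith
      rw [this]; nlinarith
  have hN := (hs.mul hc).const_mul (D - Z)
  have hMd := ((hc.pow 2).const_mul D).add ((hs.pow 2).const_mul Z)
  have hG := (hasDerivAt_id t).sub ((hN.div hMd hM.ne').arctan)
  refine hG.congr_deriv ?_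
  simp only [Pi.mul_apply, Pi.pow_apply, Pi.add_apply, Pi.div_apply]
  generalize Real.sin t = S at *
  generalize Real.cos t = C at *
  have e1 : ∀ N M X : ℝ, M ≠ 0 → 1 / (1 + (N / M) ^ 2) * (X / M ^ 2) = X / (M ^ 2 + N ^ 2) := by
    intro N M X hM
    have : 0 < M ^ 2 := by positivity
    field_simp
  rw [e1 _ _ _ hM.ne']
  have e2 : (D * C ^ 2 + Z * S ^ 2) ^ 2 + ((D - Z) * (S * C)) ^ 2 = D ^ 2 * C ^ 2 + Z ^ 2 * S ^ 2 := by
    have : C ^ 2 = 1 - S ^ 2 := by linarith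
    have e : (D * C ^ 2 + Z * S ^ 2) ^ 2 + ((D - Z) * (S * C)) ^ 2 =
      (D ^ 2 * C ^ 2 + Z ^ 2 * S ^ 2) * (S ^ 2 + C ^ 2) := by ring
    rw [e, h1, mul_one]
  rw [e2, eq_div_iff hQ.ne', sub_mul, div_mul_cancel₀ _ hQ.ne']
  push_cast
  linear_combination (D * Z - (D - Z) * (D * C ^ 2 - Z * S ^ 2)) * h1

theorem scalar_int (Z p q : ℝ) (hZ : 0 < Z) :
    ∫ t in (0 : ℝ)..(2 * Real.pi), Z / (Z ^ 2 + (p * Real.cos t + q * Real.sin t) ^ 2) =
      2 * Real.pi * (Real.sqrt (Z ^ 2 + (p ^ 2 + q ^ 2)))⁻¹ := by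
  set D := Real.sqrt (Z ^ 2 + (p ^ 2 + q ^ 2)) with hDdef
  have hD2 : D ^ 2 = Z ^ 2 + (p ^ 2 + q ^ 2) := Real.sq_sqrt (by positivity)
  have hD : 0 < D := Real.sqrt_pos.mpr (by positivity)
  obtain ⟨r, s, hp, hq⟩ : ∃ r s : ℝ, p = r * Real.cos s ∧ q = r * Real.sin s :=
    ⟨‖(⟨p, q⟩ : ℂ)‖, Complex.arg ⟨p, q⟩, (Complex.norm_mul_cos_arg ⟨p, q⟩).symm,
      (Complex.norm_mul_sin_arg ⟨p, q⟩).symm⟩
  have hr : p ^ 2 + q ^ 2 = r ^ 2 := by
    rw [hp, hq]
    have := Real.sin_sq_add_cos_sq s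
    linear_combination r ^ 2 * this
  have hpt : ∀ t : ℝ, Z / (Z ^ 2 + (p * Real.cos t + q * Real.sin t) ^ 2) =
      D⁻¹ * (D * Z / (D ^ 2 * Real.cos (t - s) ^ 2 + Z ^ 2 * Real.sin (t - s) ^ 2)) := by
    intro t
    have e1 : p * Real.cos t + q * Real.sin t = r * Real.cos (t - s) := by
      rw [hp, hq, Real.cos_sub]; ring
    have e2 : D ^ 2 * Real.cos (t - s) ^ 2 + Z ^ 2 * Real.sin (t - s) ^ 2 = Z ^ 2 + (r * Real.cos (t - s)) ^ 2 := by
      rw [hD2, hr]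
      have := Real.sin_sq_add_cos_sq (t - s)
      linear_combination Z ^ 2 * this
    rw [e1, e2, mul_div_assoc, inv_mul_cancel_left₀ hD.ne']
  simp_rw [hpt]
  rw [intervalIntegral.integral_const_mul]
  have hder : ∀ t ∈ uIcc (0 : ℝ) (2 * Real.pi), HasDerivAt (fun t => (t - s) -
      Real.arctan (((D - Z) * (Real.sin (t - s) * Real.cos (t - s))) /
        (D * Real.cos (t - s) ^ 2 + Z * Real.sin (t - s) ^ 2)))
      (D * Z / (D ^ 2 * Real.cos (t - s) ^ 2 + Z ^ 2 * Real.sin (t - s) ^ 2)) t := by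
    intro t _
    exact (G_deriv D Z hD hZ (t - s)).comp_sub_const t s
  have hpos : ∀ t : ℝ, D ^ 2 * Real.cos (t - s) ^ 2 + Z ^ 2 * Real.sin (t - s) ^ 2 ≠ 0 := by
    intro t
    have e2 : D ^ 2 * Real.cos (t - s) ^ 2 + Z ^ 2 * Real.sin (t - s) ^ 2 = Z ^ 2 + (r * Real.cos (t - s)) ^ 2 := by
      rw [hD2, hr]
      have := Real.sin_sq_add_cos_sq (t - s)
      linear_combination Z ^ 2 * this
    rw [e2]
    positivity
  rw [intervalIntegral.integral_eq_sub_of_hasDerivAt hder]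
  · rw [show (2 * Real.pi - s) = -s + 2 * Real.pi by ring, Real.sin_add_two_pi, Real.cos_add_two_pi, zero_sub]
    ring
  · apply Continuous.intervalIntegrable
    exact continuous_const.div (by fun_prop) hpos

/-- an orthonormal basis with a given first vector -/
theorem frame (a : E) (ha : ‖a‖ = 1) : ∃ u v : E, ‖u‖ = 1 ∧ ‖v‖ = 1 ∧ ⟪a, u⟫ = 0 ∧ ⟪a, v⟫ = 0 ∧ ⟪u, v⟫ = 0 ∧
    ∀ y : E, ‖y‖ ^ 2 = ⟪a, y⟫ ^ 2 + ⟪u, y⟫ ^ 2 + ⟪v, y⟫ ^ 2 := by
  have hor : Orthonormal ℝ (({0} : Set (Fin 3)).domRestrict (fun _ : Fin 3 => a)) := by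
    constructor
    · intro i; exact ha
    · intro i j hij
      exact absurd (Subsingleton.elim i j) hij
  obtain ⟨b, hb⟩ := hor.exists_orthonormalBasis_extension_of_card_eq (by simp)
  have hb0 : b 0 = a := hb 0 rfl
  refine ⟨b 1, b 2, b.orthonormal.1 1, b.orthonormal.1 2, ?_, ?_, ?_, ?_⟩
  · rw [← hb0]; exact b.orthonormal.2 (by decide)
  · rw [← hb0]; exact b.orthonormal.2 (by decide)
  · exact b.orthonormal.2 (by decide)
  · intro y
    have := b.sum_sq_norm_inner_right y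
    rw [← this, Fin.sum_univ_three, hb0]
    simp only [Real.norm_eq_abs, sq_abs]

/-- the linear form as a continuous linear map -/
noncomputable def CZ (a b : E) : E →L[ℝ] ℂ :=
  Complex.ofRealCLM.comp (innerSL ℝ a) + Complex.I • Complex.ofRealCLM.comp (innerSL ℝ b)

theorem CZ_apply (a b y : E) : CZ a b y = cz a b y := by
  show Complex.ofRealCLM (innerSL ℝ a y) + Complex.I • Complex.ofRealCLM (innerSL ℝ b y) = cz a b y
  simp only [cz, innerSL_apply_apply, Complex.ofRealCLM_apply, smul_eq_mul]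
  ring

theorem CZ_norm (a b : E) (h : ON a b) : ‖CZ a b‖ ≤ 2 := by
  refine ContinuousLinearMap.opNorm_le_bound _ (by norm_num) fun y => ?_
  rw [CZ_apply, cz]
  refine (norm_add_le _ _).trans ?_
  rw [norm_mul, Complex.norm_I, mul_one, Complex.norm_real, Complex.norm_real]
  have h1 := norm_inner_le_norm (𝕜 := ℝ) a y
  have h2 := norm_inner_le_norm (𝕜 := ℝ) b y
  rw [h.na, one_mul] at h1
  rw [h.nb, one_mul] at h2
  linarith

theorem w_ne (a b y z : E) (h : ON a b) (hy : 4 * ‖y‖ < ‖z‖) : 3 / 4 * ‖z‖ ≤ ‖(‖z‖ : ℂ) - cz a b y‖ := by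
  have h1 : ((‖z‖ : ℂ) - cz a b y).re = ‖z‖ - ⟪a, y⟫ := by simp [cz]
  have h2 := Complex.abs_re_le_norm ((‖z‖ : ℂ) - cz a b y)
  rw [h1] at h2
  have h3 := real_inner_le_norm a y
  rw [h.na, one_mul] at h3
  have h4 := le_abs_self (‖z‖ - ⟪a, y⟫)
  linarith

theorem w_ne0 (a b y z : E) (h : ON a b) (hz : z ≠ 0) (hy : 4 * ‖y‖ < ‖z‖) : (‖z‖ : ℂ) - cz a b y ≠ 0 := by
  intro h0
  have h1 := w_ne a b y z h hy
  rw [h0, norm_zero] at h1
  have := norm_pos_iff.mpr hz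
  linarith

/-- the derivative of the integrand -/
noncomputable def FD (a b z y : E) : E →L[ℝ] ℝ :=
  Complex.reCLM.comp (((((‖z‖ : ℂ) - CZ a b y) ^ 2)⁻¹) • CZ a b)

theorem F_deriv (a b y z : E) (h : ON a b) (hz : z ≠ 0) (hy : 4 * ‖y‖ < ‖z‖) :
    HasFDerivAt (fun y' => (((‖z‖ : ℂ) - cz a b y')⁻¹).re) (FD a b z y) y := by
  have hne := w_ne0 a b y z h hz hy
  rw [← CZ_apply] at hne
  have h2 : HasFDerivAt (fun y' => (‖z‖ : ℂ) - CZ a b y') (-CZ a b) y :=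
    (CZ a b).hasFDerivAt.const_sub _
  have h3 := (hasDerivAt_inv hne).comp_hasFDerivAt y h2
  have h4 := (Complex.reCLM.hasFDerivAt (x := (((‖z‖ : ℂ) - CZ a b y)⁻¹))).comp y h3
  have h5 : HasFDerivAt (fun y' => (((‖z‖ : ℂ) - cz a b y')⁻¹).re)
      (Complex.reCLM.comp ((-(((‖z‖ : ℂ) - CZ a b y) ^ 2)⁻¹) • -CZ a b)) y := by
    refine h4.congr_of_eventuallyEq (Eventually.of_forall fun y' => ?_)
    simp only [Function.comp_apply, CZ_apply]
    rfl
  have e : Complex.reCLM.comp ((-(((‖z‖ : ℂ) - CZ a b y) ^ 2)⁻¹) • -CZ a b) = FD a b z y := by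
    rw [FD]
    congr 1
    ext v
    show (-(((‖z‖ : ℂ) - CZ a b y) ^ 2)⁻¹) • (-(CZ a b v)) = ((((‖z‖ : ℂ) - CZ a b y) ^ 2)⁻¹) • (CZ a b v)
    rw [neg_smul, smul_neg, neg_neg]
  rwa [e] at h5

theorem FD_bound (a b y z : E) (h : ON a b) (hz : z ≠ 0) (hy : 4 * ‖y‖ < ‖z‖) :
    ‖FD a b z y‖ ≤ (3 / 4 * ‖z‖)⁻¹ ^ 2 * 2 := by
  have h1 := w_ne a b y z h hy
  have hz0 := norm_pos_iff.mpr hz
  refine (ContinuousLinearMap.opNorm_comp_le _ _).trans ?_
  have h2 : ‖Complex.reCLM‖ = 1 := Complex.reCLM_norm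
  rw [h2, one_mul, norm_smul, norm_inv, norm_pow, CZ_apply, ← inv_pow]
  refine mul_le_mul ?_ (CZ_norm a b h) (norm_nonneg _) (by positivity)
  refine pow_le_pow_left₀ (by positivity) ?_ 2
  exact inv_anti₀ (by positivity) h1

theorem norm_formula (a u v y z : E) (hz : z = ‖z‖ • a)
    (h : ∀ y : E, ‖y‖ ^ 2 = ⟪a, y⟫ ^ 2 + ⟪u, y⟫ ^ 2 + ⟪v, y⟫ ^ 2) :
    ‖z - y‖ = Real.sqrt ((‖z‖ - ⟪a, y⟫) ^ 2 + (⟪u, y⟫ ^ 2 + ⟪v, y⟫ ^ 2)) := by
  symm
  rw [Real.sqrt_eq_iff_mul_self_eq (by positivity) (norm_nonneg _), ← sq, norm_sub_sq_real, h y]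
  have : ⟪z, y⟫ = ‖z‖ * ⟪a, y⟫ := by
    conv_lhs => rw [hz, inner_smul_left]
    simp
  rw [this]
  ring

theorem kernel_formula (a u v y z : E) (hz0 : z ≠ 0) (ha : ‖a‖ = 1) (hz : z = ‖z‖ • a) (hy : 4 * ‖y‖ < ‖z‖)
    (h : ∀ y : E, ‖y‖ ^ 2 = ⟪a, y⟫ ^ 2 + ⟪u, y⟫ ^ 2 + ⟪v, y⟫ ^ 2) :
    ‖z - y‖⁻¹ = (2 * Real.pi)⁻¹ * ∫ t in (0 : ℝ)..(2 * Real.pi),
      (((‖z‖ : ℂ) - cz a (Real.cos t • u + Real.sin t • v) y)⁻¹).re := by
  have hzp := norm_pos_iff.mpr hz0
  have h3 := real_inner_le_norm a y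
  rw [ha, one_mul] at h3
  have hZ : 0 < ‖z‖ - ⟪a, y⟫ := by linarith [norm_nonneg y]
  have hpt : ∀ t : ℝ, (((‖z‖ : ℂ) - cz a (Real.cos t • u + Real.sin t • v) y)⁻¹).re =
      (‖z‖ - ⟪a, y⟫) / ((‖z‖ - ⟪a, y⟫) ^ 2 + (⟪u, y⟫ * Real.cos t + ⟪v, y⟫ * Real.sin t) ^ 2) := by
    intro t
    rw [Complex.inv_re]
    have h1 : ((‖z‖ : ℂ) - cz a (Real.cos t • u + Real.sin t • v) y).re = ‖z‖ - ⟪a, y⟫ := by simp [cz]
    have h2 : ((‖z‖ : ℂ) - cz a (Real.cos t • u + Real.sin t • v) y).im =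
        -(⟪u, y⟫ * Real.cos t + ⟪v, y⟫ * Real.sin t) := by
      have e : ⟪Real.cos t • u + Real.sin t • v, y⟫ = ⟪u, y⟫ * Real.cos t + ⟪v, y⟫ * Real.sin t := by
        rw [inner_add_left, inner_smul_left, inner_smul_left]
        simp only [conj_trivial]
        ring
      rw [cz, e]
      generalize ⟪u, y⟫ * Real.cos t + ⟪v, y⟫ * Real.sin t = c
      simp
    rw [Complex.normSq_apply, h1, h2]
    congr 1
    ring
  simp_rw [hpt]
  rw [scalar_int _ _ _ hZ, norm_formula a u v y z hz h, ← mul_assoc, inv_mul_cancel₀ (by positivity), one_mul]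

theorem pf_WHT : T_WHT := by
  intro z hz
  have hzp := norm_pos_iff.mpr hz
  have ha : ‖(‖z‖⁻¹ • z)‖ = 1 := by
    rw [norm_smul, norm_inv, norm_norm, inv_mul_cancel₀ hzp.ne']
  have hza : z = ‖z‖ • (‖z‖⁻¹ • z) := by rw [smul_smul, mul_inv_cancel₀ hzp.ne', one_smul]
  obtain ⟨u, v, hu, hv, hau, hav, huv, hnorm⟩ := frame (‖z‖⁻¹ • z) ha
  set a := ‖z‖⁻¹ • z with hadef
  set b : ℝ → E := fun t => Real.cos t • u + Real.sin t • v with hb
  have hbc : Continuous b := by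
    simp only [hb]
    fun_prop
  have hON : ∀ t, ON a (b t) := by
    intro t
    refine ⟨ha, ?_, ?_⟩
    · have h1 : ‖b t‖ ^ 2 = 1 := by
        simp only [hb]
        rw [norm_add_sq_real, norm_smul, norm_smul, hu, hv, inner_smul_left, inner_smul_right, huv]
        simp only [Real.norm_eq_abs, mul_one, sq_abs, mul_zero, add_zero]
        exact Real.cos_sq_add_sin_sq t
      have h2 : (‖b t‖ - 1) * (‖b t‖ + 1) = 0 := by ring_nf; linarith
      rcases mul_eq_zero.mp h2 with h | h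
      · linarith
      · linarith [norm_nonneg (b t)]
    · simp only [hb]
      rw [inner_add_right, inner_smul_right, inner_smul_right, hau, hav]
      ring
  refine ⟨a, b, hbc, hON, ?_⟩
  intro y hy
  have hU : IsOpen {y : E | 4 * ‖y‖ < ‖z‖} := isOpen_lt (continuous_const.mul continuous_norm) continuous_const
  have hyU : {y : E | 4 * ‖y‖ < ‖z‖} ∈ 𝓝 y := hU.mem_nhds hy
  have hCZc : Continuous fun t => CZ a (b t) := by
    unfold CZ
    have h1 : Continuous fun t => innerSL ℝ (b t) := (innerSL ℝ (E := E)).continuous.comp hbc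
    exact continuous_const.add ((continuous_const.clm_comp h1).const_smul Complex.I)
  have hFDc : Continuous fun t => FD a (b t) z y := by
    unfold FD
    have hw : Continuous fun t => (((‖z‖ : ℂ) - CZ a (b t) y) ^ 2)⁻¹ := by
      refine Continuous.inv₀ ((continuous_const.sub (hCZc.clm_apply continuous_const)).pow 2) ?_
      intro t
      have := w_ne0 a (b t) y z (hON t) hz hy
      rw [← CZ_apply] at this
      exact pow_ne_zero 2 this
    exact continuous_const.clm_comp (hw.smul hCZc)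
  have hFc : ∀ y' : E, 4 * ‖y'‖ < ‖z‖ → Continuous fun t => (((‖z‖ : ℂ) - cz a (b t) y')⁻¹).re := by
    intro y' hy'
    refine Complex.continuous_re.comp (Continuous.inv₀ ?_ ?_)
    · have h1 : Continuous fun t => (‖z‖ : ℂ) - CZ a (b t) y' :=
        continuous_const.sub (hCZc.clm_apply continuous_const)
      simpa only [CZ_apply] using h1
    · intro t
      exact w_ne0 a (b t) y' z (hON t) hz hy'
  have hder := intervalIntegral.hasFDerivAt_integral_of_dominated_of_fderiv_le (μ := volume)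
    (F := fun y' t => (((‖z‖ : ℂ) - cz a (b t) y')⁻¹).re) (F' := fun y' t => FD a (b t) z y')
    (x₀ := y) (a := 0) (b := 2 * Real.pi) (s := {y : E | 4 * ‖y‖ < ‖z‖}) (bound := fun _ => (3 / 4 * ‖z‖)⁻¹ ^ 2 * 2)
    hyU ?_ ?_ ?_ ?_ ?_ ?_
  · have h1 : HasFDerivAt (fun y' => ‖z - y'‖⁻¹)
        ((2 * Real.pi)⁻¹ • ∫ t in (0 : ℝ)..(2 * Real.pi), FD a (b t) z y) y := by
      refine (hder.const_smul ((2 * Real.pi)⁻¹)).congr_of_eventuallyEq ?_
      filter_upwards [hyU] with y' hy'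
      exact kernel_formula a u v y' z hz ha hza hy' hnorm
    have h2 : gr (fun y' => ‖z - y'‖⁻¹) y = (InnerProductSpace.toDual ℝ E).symm
        ((2 * Real.pi)⁻¹ • ∫ t in (0 : ℝ)..(2 * Real.pi), FD a (b t) z y) := by
      show (InnerProductSpace.toDual ℝ E).symm (fderiv ℝ (fun y' => ‖z - y'‖⁻¹) y) = _
      rw [h1.fderiv]
    have h3 : ∀ t, gr (fun y' => (((‖z‖ : ℂ) - cz a (b t) y')⁻¹).re) y =
        (InnerProductSpace.toDual ℝ E).symm (FD a (b t) z y) := by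
      intro t
      show (InnerProductSpace.toDual ℝ E).symm (fderiv ℝ (fun y' => (((‖z‖ : ℂ) - cz a (b t) y')⁻¹).re) y) = _
      rw [(F_deriv a (b t) y z (hON t) hz hy).fderiv]
    rw [h2]
    simp_rw [h3]
    have hGc : Continuous fun t => (InnerProductSpace.toDual ℝ E).symm (FD a (b t) z y) :=
      (InnerProductSpace.toDual ℝ E).symm.continuous.comp hFDc
    refine ext_inner_right ℝ fun w => ?_
    rw [InnerProductSpace.toDual_symm_apply, inner_smul_left, real_inner_comm]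
    have h4 := (innerSL ℝ w).intervalIntegral_comp_comm (μ := volume) (hGc.intervalIntegrable 0 (2 * Real.pi))
    simp only [innerSL_apply_apply] at h4
    rw [← h4]
    have h5 : ∀ t, ⟪w, (InnerProductSpace.toDual ℝ E).symm (FD a (b t) z y)⟫ = FD a (b t) z y w := by
      intro t
      rw [real_inner_comm, InnerProductSpace.toDual_symm_apply]
    simp_rw [h5]
    rw [smul_apply, ContinuousLinearMap.intervalIntegral_apply (hFDc.intervalIntegrable 0 (2 * Real.pi))]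
    simp only [conj_trivial, smul_eq_mul]
  · filter_upwards [hyU] with y' hy'
    exact (hFc y' hy').aestronglyMeasurable
  · exact (hFc y hy).intervalIntegrable _ _
  · exact hFDc.aestronglyMeasurable
  · refine Eventually.of_forall fun t _ y' hy' => ?_
    exact FD_bound a (b t) y' z (hON t) hz hy'
  · exact continuous_const.intervalIntegrable _ _
  · refine Eventually.of_forall fun t _ y' hy' => ?_
    exact F_deriv a (b t) y' z (hON t) hz hy'

end Pool.Agent.H52.APS
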